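import Pool.Agent.AT12.Stmts2

/-! # AT12, row CCY -/

open scoped BigOperators

noncomputable section

namespace Pool.Agent.PP.T12.H3

open Pool.Agent.Helper51_AWC Pool.Agent.Helper79_WRA Pool.Agent.PP Pool.Agent.PP.KF
open Pool.Agent.PP.K9 Pool.Agent.PP.K9.H97 Pool.Agent.PP.H75 Pool.Agent.PP.T3 Pool.Agent.PP.T2
open Pool.Agent.PP.T8 Pool.Agent.PP.T12

attribute [local instance] Ideal.Quotient.field

section gen

variable {G : Type} [Group G] [Finite G] {F : Type} [Field F] {V : Subgroup G} {γ : G → F}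

theorem cen_le (hγ : Bx (Subgroup.centralizer (V : Set G)) γ) :
    Subgroup.centralizer (V : Set G) ≤ Tg V γ := by
  intro c hc
  refine Subgroup.mem_inf.2 ⟨?_, ?_⟩
  · rw [Subgroup.mem_normalizer_iff]
    intro h
    constructor
    · intro hh
      have := (Subgroup.mem_centralizer_iff.1 hc) h hh
      rw [← this, mul_inv_cancel_right]
      exact hh
    · intro hh
      have := (Subgroup.mem_centralizer_iff.1 hc) _ hh
      have e : h = c * h * c⁻¹ := by
        have e2 : c * h * c⁻¹ * c = c * (c * h * c⁻¹) := this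
        have e3 : c * h = c * (c * h * c⁻¹) := by
          rw [← e2]
          group
        exact mul_left_cancel e3
      rw [e]
      exact hh
  · exact (cj_eq_iff _ _).1 (hγ.ix.inv hc)

/-- the inertial group normalises `V` -/
theorem tg_conj {t : G} (ht : t ∈ Tg V γ) {v : G} (hv : v ∈ V) : t * v * t⁻¹ ∈ V :=
  (Subgroup.mem_normalizer_iff.1 ht.1 v).1 hv

/-- the inertial group normalises the centraliser of `V` -/
theorem tg_cen {t : G} (ht : t ∈ Tg V γ) {c : G}
    (hc : t⁻¹ * c * t ∈ Subgroup.centralizer (V : Set G)) :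
    c ∈ Subgroup.centralizer (V : Set G) := by
  rw [Subgroup.mem_centralizer_iff] at hc ⊢
  intro v hv
  have h1 : t⁻¹ * v * t ∈ V := by
    have := tg_conj ((Tg V γ).inv_mem ht) hv
    rw [inv_inv] at this
    exact this
  have h2 := hc _ h1
  have h3 : t⁻¹ * (v * c) * t = t⁻¹ * (c * v) * t := by
    calc t⁻¹ * (v * c) * t = (t⁻¹ * v * t) * (t⁻¹ * c * t) := by group
      _ = (t⁻¹ * c * t) * (t⁻¹ * v * t) := h2
      _ = t⁻¹ * (c * v) * t := by group
  exact mul_left_cancel (mul_right_cancel h3)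

/-- `fs` does not change under conjugation with elements of the inertial group -/
theorem fs_conj (i : G → ℂ) {t z : G} (ht : t ∈ Tg V γ) (hz : z ∈ V) (χ : G → ℂ) :
    fs V γ i (t * z * t⁻¹) χ = fs V γ i z χ := by
  classical
  let Q := Tg V γ ⧸ (Subgroup.centralizer (V : Set G)).subgroupOf (Tg V γ)
  have hQf : Fintype Q := Fintype.ofFinite _
  have h1 : ∀ w, fs V γ i w χ = ∑ q : Q,
      fv i (((q.out : Tg V γ) : G) * w * ((q.out : Tg V γ) : G)⁻¹) χ := fun w =>
    finsum_eq_sum_of_fintype _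
  rw [h1, h1]
  let φ : Q → Q := fun q => QuotientGroup.mk ((q.out : Tg V γ) * ⟨t, ht⟩)
  have hinj : Function.Injective φ := by
    intro q q' h
    have h2 := QuotientGroup.eq.1 h
    rw [Subgroup.mem_subgroupOf] at h2
    have h3 : t⁻¹ * (((q.out : Tg V γ) : G)⁻¹ * ((q'.out : Tg V γ) : G)) * t ∈
        Subgroup.centralizer (V : Set G) := by
      have h4 : t⁻¹ * (((q.out : Tg V γ) : G)⁻¹ * ((q'.out : Tg V γ) : G)) * t =
          ((((q.out : Tg V γ) * ⟨t, ht⟩)⁻¹ * ((q'.out : Tg V γ) * ⟨t, ht⟩) : Tg V γ) : G) := by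
        rw [Subgroup.coe_mul, Subgroup.coe_inv, Subgroup.coe_mul, Subgroup.coe_mul]
        group
      rw [h4]
      exact h2
    have h5 := tg_cen ht h3
    have h6 : (QuotientGroup.mk (q.out : Tg V γ) : Q) = QuotientGroup.mk (q'.out : Tg V γ) := by
      refine QuotientGroup.eq.2 ?_
      rw [Subgroup.mem_subgroupOf, Subgroup.coe_mul, Subgroup.coe_inv]
      exact h5
    have h7 := q.out_eq'
    have h8 := q'.out_eq'
    exact h7.symm.trans (h6.trans h8)
  refine Fintype.sum_bijective φ (Finite.injective_iff_bijective.1 hinj) _ _ fun q => ?_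
  have h2 : (QuotientGroup.mk ((φ q).out : Tg V γ) : Q) =
      QuotientGroup.mk ((q.out : Tg V γ) * ⟨t, ht⟩) := (φ q).out_eq'
  have h3 := QuotientGroup.eq.1 h2
  rw [Subgroup.mem_subgroupOf, Subgroup.coe_mul, Subgroup.coe_inv, Subgroup.coe_mul,
    Subgroup.mem_centralizer_iff] at h3
  have h4 := h3 z hz
  have h5 : ((q.out : Tg V γ) : G) * (t * z * t⁻¹) * ((q.out : Tg V γ) : G)⁻¹ =
      (((φ q).out : Tg V γ) : G) * z * (((φ q).out : Tg V γ) : G)⁻¹ := by
    have h6 : (((φ q).out : Tg V γ) : G)⁻¹ * (((q.out : Tg V γ) : G) * t) * z =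
        z * ((((φ q).out : Tg V γ) : G)⁻¹ * (((q.out : Tg V γ) : G) * t)) := h4.symm
    calc ((q.out : Tg V γ) : G) * (t * z * t⁻¹) * ((q.out : Tg V γ) : G)⁻¹
        = (((φ q).out : Tg V γ) : G) * ((((φ q).out : Tg V γ) : G)⁻¹ *
            (((q.out : Tg V γ) : G) * t) * z) * (((q.out : Tg V γ) : G) * t)⁻¹ := by group
      _ = (((φ q).out : Tg V γ) : G) * (z * ((((φ q).out : Tg V γ) : G)⁻¹ *
            (((q.out : Tg V γ) : G) * t))) * (((q.out : Tg V γ) : G) * t)⁻¹ := by rw [h6]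
      _ = _ := by group
  exact congrArg (fun w => fv i w χ) h5

end gen

/-- the order of the defect group -/
theorem card_V {G H : Type} [Group G] [Finite G] [Group H] [Finite H] {V : Subgroup G} {y : G}
    {n : ℕ} {π : Cu y →* H} (hQ : C2.Qn n y π) (hVy : V ≤ Cu y) (hy : y ∈ V) :
    Nat.card V = n * Nat.card ((V.subgroupOf (Cu y)).map π) := by
  let V' := V.subgroupOf (Cu y)
  have h1 : Nat.card V' = Nat.card V := Nat.card_congr (Subgroup.subgroupOfEquivOfLe hVy).toEquiv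
  let f : V' →* V'.map π := π.subgroupMap V'
  have hf : Function.Surjective f := π.subgroupMap_surjective V'
  have h2 := Subgroup.card_eq_card_quotient_mul_card_subgroup f.ker
  have h3 : Nat.card (V' ⧸ f.ker) = Nat.card (V'.map π) :=
    Nat.card_congr (QuotientGroup.quotientKerEquivOfSurjective f hf).toEquiv
  have h4 : Nat.card f.ker = n := by
    rw [← hQ.ord, ← Nat.card_zpowers]
    have hker : ∀ c : V', c ∈ f.ker ↔ ((c : Cu y) : G) ∈ Subgroup.zpowers y := by
      intro c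
      rw [MonoidHom.mem_ker, ← hQ.ker (c : Cu y)]
      constructor
      · intro h
        have := congrArg Subtype.val h
        exact this
      · intro h
        exact Subtype.ext h
    have hzV : Subgroup.zpowers y ≤ V := by
      rw [Subgroup.zpowers_le]
      exact hy
    refine Nat.card_congr ⟨fun c => ⟨((c : V') : Cu y), (hker c).1 c.2⟩,
      fun w => ⟨⟨⟨w, hVy (hzV w.2)⟩, ?_⟩, ?_⟩, fun c => rfl, fun w => rfl⟩
    · exact hzV w.2
    · rw [hker]
      exact w.2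
  rw [← h1, h2, h3, h4, mul_comm]

theorem ccy (hOav : OavStmt) (hFch : T8.FchStmt) : CcyStmt := by
  classical
  intro ℓ hℓ M _ hM G H _ _ _ _ a e V γ y β π m K g hS i hi R hR j hj
  have hab := hS.ld.ab
  have hGf : Fintype G := Fintype.ofFinite _
  have hzV : y ^ j ∈ V := V.pow_mem hS.mem j
  -- the orthogonality relations
  have hO1 : ∀ s, ∀ v ∈ V, (∀ t ∈ Tg V γ, t * v * t⁻¹ ≠ y ^ j) →
      ∑ χ ∈ irr_finite'.toFinset, Av ℓ π (y ^ j) (g s) χ * starRingEnd ℂ (fv i v χ) = 0 := by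
    intro s v hv h
    rw [← finsum_mem_eq_finite_toFinset_sum _ irr_finite']
    exact (hOav ℓ M hM G H a e V γ y β π m K g hS j hj (g s) (hS.cd.ze s) (hS.cd.rc s)).1
      i hi v hv h
  have hO4 : ∀ s s', ∑ χ ∈ irr_finite'.toFinset, Av ℓ π (y ^ j) (g s) χ *
      starRingEnd ℂ (Av ℓ π (y ^ j) (g s') χ) =
      (ℓ : ℂ) ^ a * ((if s' = s then 1 else 0) + K) := by
    intro s s'
    rw [← finsum_mem_eq_finite_toFinset_sum _ irr_finite', ← hS.cd.gr s' s]
    exact (hOav ℓ M hM G H a e V γ y β π m K g hS j hj (g s) (hS.cd.ze s)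
      (hS.cd.rc s)).2.2.2 (g s') (hS.cd.ze s') (hS.cd.rc s')
  have hmem : ∀ χ, χ ∈ (irr_finite' (G := G)).toFinset ↔ χ ∈ Irr G := fun χ =>
    Set.Finite.mem_toFinset _
  -- cosets
  let Q := Tg V γ ⧸ (Subgroup.centralizer (V : Set G)).subgroupOf (Tg V γ)
  have hQf : Fintype Q := Fintype.ofFinite _
  have hix : (ix V γ : ℕ) = Fintype.card Q := by
    rw [← Nat.card_eq_fintype_card]
    rfl
  let cq : Q → G → G := fun q z => ((q.out : Tg V γ) : G) * z * ((q.out : Tg V γ) : G)⁻¹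
  have hfs : ∀ z χ, fs V γ i z χ = ∑ q : Q, fv i (cq q z) χ := fun z χ =>
    finsum_eq_sum_of_fintype _
  have hVf : Fintype V := Fintype.ofFinite _
  have hcV : ((Nat.card V : ℕ) : ℂ) ≠ 0 := Nat.cast_ne_zero.2 Nat.card_pos.ne'
  have hperm : ∀ (q : Q) (F : G → ℂ), ∑ v : V, F (cq q v) = ∑ v : V, F v := by
    intro q F
    let f : V → V := fun v => ⟨cq q v, tg_conj (q.out : Tg V γ).2 v.2⟩
    have hf : Function.Injective f := by
      intro v w h
      have h1 : cq q v = cq q w := congrArg Subtype.val h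
      exact Subtype.ext (mul_left_cancel (mul_right_cancel h1))
    exact Fintype.sum_bijective f (Finite.injective_iff_bijective.1 hf) _ _ fun v => rfl
  have hA : ∀ χ ∈ Irr G, ∃ mχ : ℕ, ∑ v : V, fv i v χ = Nat.card V * (mχ : ℂ) := by
    intro χ hχ
    obtain ⟨mχ, hm⟩ := hFch M G V hab i hi.ip χ hχ 1
    refine ⟨mχ, ?_⟩
    rw [← hm, mul_inv_cancel_left₀ hcV, finsum_eq_sum_of_fintype]
    exact Finset.sum_congr rfl fun v _ => by rw [MonoidHom.one_apply, mul_one]
  choose! mχ hm using hA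
  have hF1 : ∀ χ ∈ Irr G, (Nat.card V : ℂ)⁻¹ * ∑ v : V, fs V γ i v χ = ix V γ * (mχ χ : ℂ) := by
    intro χ hχ
    have h1 : ∑ v : V, fs V γ i v χ = ∑ q : Q, ∑ v : V, fv i (cq q v) χ := by
      rw [Finset.sum_comm]
      exact Finset.sum_congr rfl fun v _ => hfs _ _
    rw [h1]
    have h2 : ∀ q : Q, ∑ v : V, fv i (cq q v) χ = Nat.card V * (mχ χ : ℂ) := fun q => by
      rw [hperm q (fun z => fv i z χ)]
      exact hm χ hχ
    rw [Finset.sum_congr rfl fun q _ => h2 q, Finset.sum_const, Finset.card_univ, ← hix,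
      nsmul_eq_mul]
    field_simp
  -- the sums for the elements of `V`
  let T : G → ℂ := fun v => ∑ χ ∈ irr_finite'.toFinset,
    fs V γ i (y ^ j) χ * starRingEnd ℂ (fs V γ i v χ)
  have hcc : T8.cc V γ i (y ^ j) = (Nat.card V : ℂ)⁻¹ * ∑ v : V, T v := by
    unfold T8.cc
    rw [finsum_mem_eq_finite_toFinset_sum _ irr_finite']
    have h1 : ∑ v : V, T v = ∑ χ ∈ (irr_finite' (G := G)).toFinset,
        fs V γ i (y ^ j) χ * starRingEnd ℂ (∑ v : V, fs V γ i v χ) := by
      change ∑ v : V, ∑ χ ∈ irr_finite'.toFinset, _ = _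
      rw [Finset.sum_comm]
      refine Finset.sum_congr rfl fun χ _ => ?_
      rw [map_sum, Finset.mul_sum]
    rw [h1, Finset.mul_sum]
    refine Finset.sum_congr rfl fun χ hχ => ?_
    have h2 := hF1 χ ((hmem χ).1 hχ)
    have h3 : (Nat.card V : ℂ)⁻¹ * starRingEnd ℂ (∑ v : V, fs V γ i v χ) =
        ix V γ * (mχ χ : ℂ) := by
      have h4 := congrArg (starRingEnd ℂ) h2
      rw [map_mul, map_mul, map_inv₀, map_natCast, map_natCast, map_natCast] at h4
      exact h4
    rw [finsum_eq_sum_of_fintype, h2, mul_left_comm, h3]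
    ring
  -- off the orbit
  have hT0 : ∀ v ∈ V, (∀ t ∈ Tg V γ, t * v * t⁻¹ ≠ y ^ j) → T v = 0 := by
    intro v hv h
    have h1 : ∀ q : Q, ∀ s, ∑ χ ∈ (irr_finite' (G := G)).toFinset,
        Av ℓ π (y ^ j) (g s) χ * starRingEnd ℂ (fv i (cq q v) χ) = 0 := by
      intro q s
      refine hO1 s _ (tg_conj (q.out : Tg V γ).2 hv) fun t ht h2 => ?_
      refine h (t * ((q.out : Tg V γ) : G)) ((Tg V γ).mul_mem ht (q.out : Tg V γ).2) ?_
      rw [← h2]
      change _ = t * (((q.out : Tg V γ) : G) * v * ((q.out : Tg V γ) : G)⁻¹) * t⁻¹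
      group
    have h2 : T v = ∑ q : Q, ∑ s, (R s : ℂ) * ∑ χ ∈ (irr_finite' (G := G)).toFinset,
        Av ℓ π (y ^ j) (g s) χ * starRingEnd ℂ (fv i (cq q v) χ) := by
      change ∑ χ ∈ irr_finite'.toFinset, _ = _
      have h3 : ∀ χ ∈ (irr_finite' (G := G)).toFinset,
          fs V γ i (y ^ j) χ * starRingEnd ℂ (fs V γ i v χ) = ∑ q : Q, ∑ s,
            (R s : ℂ) * (Av ℓ π (y ^ j) (g s) χ * starRingEnd ℂ (fv i (cq q v) χ)) := by
        intro χ hχ
        rw [hR j hj χ ((hmem χ).1 hχ), hfs v χ, map_sum, Finset.mul_sum]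
        refine Finset.sum_congr rfl fun q _ => ?_
        rw [Finset.sum_mul]
        refine Finset.sum_congr rfl fun s _ => ?_
        ring
      rw [Finset.sum_congr rfl h3, Finset.sum_comm]
      refine Finset.sum_congr rfl fun q _ => ?_
      rw [Finset.sum_comm]
      refine Finset.sum_congr rfl fun s _ => ?_
      rw [Finset.mul_sum]
    rw [h2]
    refine Finset.sum_eq_zero fun q _ => Finset.sum_eq_zero fun s _ => ?_
    rw [h1 q s, mul_zero]
  -- on the orbit
  have hT1 : ∀ t ∈ Tg V γ, T (t * y ^ j * t⁻¹) =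
      (ℓ : ℂ) ^ a * (∑ s, (R s : ℂ) ^ 2 + K * (∑ s, (R s : ℂ)) ^ 2) := by
    intro t ht
    have h1 : T (t * y ^ j * t⁻¹) = ∑ s, ∑ s', (R s : ℂ) * R s' *
        ∑ χ ∈ (irr_finite' (G := G)).toFinset,
          Av ℓ π (y ^ j) (g s) χ * starRingEnd ℂ (Av ℓ π (y ^ j) (g s') χ) := by
      change ∑ χ ∈ irr_finite'.toFinset, _ = _
      have h3 : ∀ χ ∈ (irr_finite' (G := G)).toFinset,
          fs V γ i (y ^ j) χ * starRingEnd ℂ (fs V γ i (t * y ^ j * t⁻¹) χ) = ∑ s, ∑ s',
            (R s : ℂ) * R s' * (Av ℓ π (y ^ j) (g s) χ *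
              starRingEnd ℂ (Av ℓ π (y ^ j) (g s') χ)) := by
        intro χ hχ
        rw [fs_conj i ht hzV χ, hR j hj χ ((hmem χ).1 hχ), map_sum, Finset.sum_mul]
        refine Finset.sum_congr rfl fun s _ => ?_
        rw [Finset.mul_sum]
        refine Finset.sum_congr rfl fun s' _ => ?_
        rw [map_mul, map_intCast]
        ring
      rw [Finset.sum_congr rfl h3, Finset.sum_comm]
      refine Finset.sum_congr rfl fun s _ => ?_
      rw [Finset.sum_comm]
      refine Finset.sum_congr rfl fun s' _ => ?_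
      rw [Finset.mul_sum]
    rw [h1]
    have h2 : ∀ s, ∑ s', (R s : ℂ) * R s' * ∑ χ ∈ (irr_finite' (G := G)).toFinset,
          Av ℓ π (y ^ j) (g s) χ * starRingEnd ℂ (Av ℓ π (y ^ j) (g s') χ) =
        (ℓ : ℂ) ^ a * ((R s : ℂ) ^ 2 + K * (R s : ℂ) * ∑ s', (R s' : ℂ)) := by
      intro s
      have h3 : ∀ s', (R s : ℂ) * R s' * ∑ χ ∈ (irr_finite' (G := G)).toFinset,
          Av ℓ π (y ^ j) (g s) χ * starRingEnd ℂ (Av ℓ π (y ^ j) (g s') χ) =
          (ℓ : ℂ) ^ a * ((if s' = s then (R s : ℂ) * R s' else 0) + K * R s * R s') := by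
        intro s'
        rw [hO4 s s']
        split_ifs <;> ring
      rw [Finset.sum_congr rfl fun s' _ => h3 s', ← Finset.mul_sum, Finset.sum_add_distrib,
        Finset.sum_ite_eq', if_pos (Finset.mem_univ _), ← Finset.mul_sum, sq]
    rw [Finset.sum_congr rfl fun s _ => h2 s, ← Finset.mul_sum, Finset.sum_add_distrib,
      ← Finset.sum_mul, ← Finset.mul_sum]
    ring
  -- the orbit
  have hcop : Nat.Coprime j (orderOf y) := by
    rw [hS.qn.ord]
    exact Nat.Coprime.pow_right _ ((Nat.coprime_comm).1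
      (((Fact.out : ℓ.Prime).coprime_iff_not_dvd).2 hj))
  have hcy : ∀ t : G, t * y ^ j = y ^ j * t → t ∈ Cu y := by
    intro t ht
    obtain ⟨k, hk⟩ := exists_pow_eq_self_of_coprime hcop
    have h1 : Commute t ((y ^ j) ^ k) := Commute.pow_right ht k
    rw [hk] at h1
    refine Subgroup.mem_centralizer_iff.2 ?_
    rintro x hx
    rw [Set.mem_singleton_iff.1 hx]
    exact h1.symm
  let Q' := Tg V γ ⧸ (Cu y).subgroupOf (Tg V γ)
  have hQf' : Fintype Q' := Fintype.ofFinite _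
  let cq' : Q' → G := fun q => ((q.out : Tg V γ) : G) * y ^ j * ((q.out : Tg V γ) : G)⁻¹
  have hcq' : ∀ q, cq' q ∈ V := fun q => tg_conj (q.out : Tg V γ).2 hzV
  have hinj : Function.Injective cq' := by
    intro q q' h
    have h2 : ((q.out : Tg V γ) : G) * y ^ j * ((q.out : Tg V γ) : G)⁻¹ =
      ((q'.out : Tg V γ) : G) * y ^ j * ((q'.out : Tg V γ) : G)⁻¹ := h
    have h1 : ((q'.out : Tg V γ) : G)⁻¹ * ((q.out : Tg V γ) : G) * y ^ j =
        y ^ j * (((q'.out : Tg V γ) : G)⁻¹ * ((q.out : Tg V γ) : G)) := by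
      calc ((q'.out : Tg V γ) : G)⁻¹ * ((q.out : Tg V γ) : G) * y ^ j
          = ((q'.out : Tg V γ) : G)⁻¹ * (((q.out : Tg V γ) : G) * y ^ j *
              ((q.out : Tg V γ) : G)⁻¹) * ((q.out : Tg V γ) : G) := by group
        _ = _ := by rw [h2]; group
    have h3 := hcy _ h1
    have h4 : (QuotientGroup.mk (q'.out : Tg V γ) : Q') = QuotientGroup.mk (q.out : Tg V γ) := by
      refine QuotientGroup.eq.2 ?_
      rw [Subgroup.mem_subgroupOf, Subgroup.coe_mul, Subgroup.coe_inv]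
      exact h3
    have h5 := q.out_eq'
    have h6 := q'.out_eq'
    exact h5.symm.trans (h4.symm.trans h6)
  have hzero : ∀ v : V, (∀ q : Q', cq' q ≠ v) → T v = 0 := by
    intro v hv
    refine hT0 v v.2 fun t ht h => ?_
    let q : Q' := QuotientGroup.mk (⟨t, ht⟩⁻¹ : Tg V γ)
    refine hv q ?_
    have h1 : (QuotientGroup.mk (q.out : Tg V γ) : Q') =
        QuotientGroup.mk (⟨t, ht⟩⁻¹ : Tg V γ) := q.out_eq'
    have h2 := QuotientGroup.eq.1 h1
    rw [Subgroup.mem_subgroupOf, Subgroup.coe_mul, Subgroup.coe_inv, Subgroup.coe_inv] at h2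
    have h3 : y * (((q.out : Tg V γ) : G)⁻¹ * t⁻¹) = (((q.out : Tg V γ) : G)⁻¹ * t⁻¹) * y :=
      Subgroup.mem_centralizer_iff.1 h2 y (Set.mem_singleton _)
    have h4 : y ^ j * (((q.out : Tg V γ) : G)⁻¹ * t⁻¹) =
        (((q.out : Tg V γ) : G)⁻¹ * t⁻¹) * y ^ j := (Commute.pow_left h3 j).eq
    have h5 : (v : G) = t⁻¹ * y ^ j * t := by
      rw [← h]
      group
    change ((q.out : Tg V γ) : G) * y ^ j * ((q.out : Tg V γ) : G)⁻¹ = v
    rw [h5]
    calc ((q.out : Tg V γ) : G) * y ^ j * ((q.out : Tg V γ) : G)⁻¹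
        = ((q.out : Tg V γ) : G) * (y ^ j * (((q.out : Tg V γ) : G)⁻¹ * t⁻¹)) * t := by group
      _ = _ := by rw [h4]; group
  have hsum : ∑ v : V, T v = (Fintype.card Q' : ℂ) *
      ((ℓ : ℂ) ^ a * (∑ s, (R s : ℂ) ^ 2 + K * (∑ s, (R s : ℂ)) ^ 2)) := by
    have h1 : ∑ v : V, T v = ∑ v ∈ Finset.univ.image (fun q : Q' => (⟨cq' q, hcq' q⟩ : V)),
        T v := by
      symm
      refine Finset.sum_subset (Finset.subset_univ _) fun v _ hv => hzero v fun q hq => hv ?_
      rw [Finset.mem_image]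
      exact ⟨q, Finset.mem_univ _, Subtype.ext hq⟩
    rw [h1, Finset.sum_image fun q _ q' _ h => hinj (congrArg Subtype.val h)]
    have h2 : ∀ q : Q', T (cq' q) =
        (ℓ : ℂ) ^ a * (∑ s, (R s : ℂ) ^ 2 + K * (∑ s, (R s : ℂ)) ^ 2) := fun q =>
      hT1 _ (q.out : Tg V γ).2
    rw [Finset.sum_congr rfl fun q _ => h2 q, Finset.sum_const, Finset.card_univ, nsmul_eq_mul]
  -- the indices
  have hcle : Subgroup.centralizer (V : Set G) ≤ Tg V γ ⊓ Cu y := by
    refine le_inf (cen_le hS.ld.gam) ?_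
    intro c hc
    refine Subgroup.mem_centralizer_iff.2 ?_
    rintro x hx
    rw [Set.mem_singleton_iff.1 hx]
    exact Subgroup.mem_centralizer_iff.1 hc y hS.mem
  have hidx : m * Fintype.card Q' = ix V γ := by
    have h1 := Subgroup.relIndex_mul_relIndex (Subgroup.centralizer (V : Set G))
      (Tg V γ ⊓ Cu y) (Tg V γ) hcle inf_le_left
    rw [hS.ind, Subgroup.inf_relIndex_left] at h1
    rw [← Nat.card_eq_fintype_card]
    exact h1
  have hVy : V ≤ Cu y := by
    intro v hv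
    refine Subgroup.mem_centralizer_iff.2 ?_
    rintro x hx
    rw [Set.mem_singleton_iff.1 hx]
    exact hab y hS.mem v hv
  have hcard : Nat.card V = ℓ ^ a * (m * K + 1) := by
    rw [card_V hS.qn hVy hS.mem, hS.cd.mul]
  have hLne : ((m * K + 1 : ℕ) : ℂ) ≠ 0 := Nat.cast_ne_zero.2 (Nat.succ_ne_zero _)
  have hlne : (ℓ : ℂ) ^ a ≠ 0 := pow_ne_zero _ (Nat.cast_ne_zero.2 (Fact.out : ℓ.Prime).ne_zero)
  rw [hcc, hsum, hcard, ← hidx, Nat.cast_mul, Nat.cast_pow, Nat.cast_mul]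
  field_simp

end Pool.Agent.PP.T12.H3
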